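import Pool.Agent.W669.HD.FiveFin

/-!
# Alternating sums of mixed Gauss–Bonnet–Chern sums
-/

set_option autoImplicit false

namespace Pool.Agent.R65.HP

open Pool.Agent.W666.GB Pool.Agent.W669.HD Finset

/-- the coefficients -/
noncomputable def cf (m k : ℕ) : ℝ := (m.choose k : ℝ) / (m : ℝ) ^ k

theorem cf_nonneg (m k : ℕ) : 0 ≤ cf m k := by unfold cf; positivity

theorem cf_anti {m : ℕ} (hm : 1 ≤ m) (k : ℕ) : cf m (k + 1) ≤ cf m k := by
  have hm' : (0 : ℝ) < m := by exact_mod_cast hm
  unfold cf
  rw [div_le_div_iff₀ (by positivity) (by positivity), pow_succ]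
  have h1 : m.choose (k + 1) ≤ m.choose k * m := by
    have h2 := Nat.choose_succ_right_eq m k
    calc m.choose (k + 1) ≤ m.choose (k + 1) * (k + 1) := Nat.le_mul_of_pos_right _ (by omega)
      _ = m.choose k * (m - k) := h2
      _ ≤ m.choose k * m := Nat.mul_le_mul_left _ (Nat.sub_le _ _)
  have h3 : ((m.choose (k + 1) : ℕ) : ℝ) ≤ (m.choose k : ℝ) * m := by exact_mod_cast h1
  have h4 : (0 : ℝ) < (m : ℝ) ^ k := by positivity
  nlinarith

/-- partial sums -/
noncomputable def bs (m j : ℕ) : ℝ := ∑ k ∈ range (j + 1), (-1) ^ k * cf m k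

theorem bs_succ (m j : ℕ) : bs m (j + 1) = bs m j + (-1) ^ (j + 1) * cf m (j + 1) := by
  unfold bs
  rw [Finset.sum_range_succ]

theorem bs_aux {m : ℕ} (hm : 1 ≤ m) (j : ℕ) :
    0 ≤ bs m j ∧ ((-1 : ℝ) ^ j = 1 → cf m j ≤ bs m j) := by
  induction j with
  | zero =>
    have h0 : bs m 0 = cf m 0 := by simp [bs]
    rw [h0]
    exact ⟨cf_nonneg _ _, fun _ => le_rfl⟩
  | succ j ih =>
    rw [bs_succ, pow_succ]
    have h1 := cf_anti hm j
    have h2 := cf_nonneg m (j + 1)
    rcases neg_one_pow_eq_or ℝ j with h | h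
    · have h3 := ih.2 h
      rw [h]
      constructor
      · linarith
      · intro h4; norm_num at h4
    · rw [h]
      constructor
      · linarith [ih.1]
      · intro _; linarith [ih.1]

theorem bs_last {m : ℕ} (hm : 1 ≤ m) : (m : ℝ) ^ m * bs m m = ((m : ℝ) - 1) ^ m := by
  have hm' : (m : ℝ) ≠ 0 := by
    have : 0 < m := hm
    positivity
  have h1 : bs m m = (-(1 / (m : ℝ)) + 1) ^ m := by
    rw [add_pow]
    unfold bs cf
    refine Finset.sum_congr rfl fun k _ => ?_
    rw [one_pow, mul_one, neg_pow (1 / (m : ℝ)), one_div, inv_pow]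
    ring
  rw [h1, ← mul_pow]
  congr 1
  field_simp
  ring

/-- the alternating sum -/
theorem alt_sum {m : ℕ} (hm : 1 ≤ m) (t : ℕ → ℝ) (h1 : ∀ k < m, m * t (k + 1) ≤ t k) :
    ((m : ℝ) - 1) ^ m * t m ≤ ∑ k ∈ range (m + 1), (m.choose k : ℝ) * ((-1) ^ k * t k) := by
  have hm' : (0 : ℝ) < m := by exact_mod_cast hm
  have key : ∀ j ≤ m, ((m : ℝ) ^ j * t j) * bs m j ≤
      ∑ k ∈ range (j + 1), (m.choose k : ℝ) * ((-1) ^ k * t k) := by
    intro j
    induction j with
    | zero =>
      intro _
      simp [bs, cf]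
    | succ j ih =>
      intro hj
      rw [Finset.sum_range_succ, bs_succ]
      have h2 := ih (by omega)
      have h3 := h1 j (by omega)
      have h4 := (bs_aux hm j).1
      have h5 : (m : ℝ) ^ (j + 1) * t (j + 1) * ((-1) ^ (j + 1) * cf m (j + 1)) =
          (m.choose (j + 1) : ℝ) * ((-1) ^ (j + 1) * t (j + 1)) := by
        unfold cf
        field_simp
      have h6 : (m : ℝ) ^ (j + 1) * t (j + 1) ≤ (m : ℝ) ^ j * t j := by
        rw [pow_succ, mul_assoc]
        exact mul_le_mul_of_nonneg_left h3 (by positivity)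
      have h7 := mul_le_mul_of_nonneg_right h6 h4
      rw [mul_add, h5]
      linarith
  have h := key m le_rfl
  rw [mul_right_comm, bs_last hm] at h
  exact h

variable {m : ℕ}

theorem gm_perm (C : Fin m → T4 m) (π : Equiv.Perm (Fin m)) :
    gm (fun b => C (π b)) = gm C := by
  classical
  set ρ : Equiv.Perm (Fin m × Bool) := Equiv.prodCongr π (Equiv.refl Bool) with hρ
  have h0 : ∀ b β, ρ (b, β) = (π b, β) := fun b β => rfl
  unfold gm
  rw [← Equiv.sum_comp (Equiv.mulRight ρ)]
  refine Finset.sum_congr rfl fun σ _ => ?_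
  rw [← Equiv.sum_comp (Equiv.mulRight ρ)]
  refine Finset.sum_congr rfl fun τ _ => ?_
  simp only [Equiv.coe_mulRight, sn_mul]
  have h1 : sn ρ * sn ρ = 1 := sn_mul_self ρ
  have h2 : ∏ b, C (π b) ((σ * ρ) (b, false)) ((σ * ρ) (b, true)) ((τ * ρ) (b, false))
      ((τ * ρ) (b, true)) =
      ∏ b, C b (σ (b, false)) (σ (b, true)) (τ (b, false)) (τ (b, true)) := by
    simp only [Equiv.Perm.mul_apply, h0]
    exact Equiv.prod_comp π (fun b => C b (σ (b, false)) (σ (b, true)) (τ (b, false)) (τ (b, true)))
  rw [h2]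
  linear_combination (sn σ * sn τ * ∏ b, C b (σ (b, false)) (σ (b, true)) (τ (b, false))
    (τ (b, true))) * h1

/-- `E` in the first `k` places, `P` in the others -/
noncomputable def tk (E P : T4 m) (k : ℕ) : ℝ := gm (fun b : Fin m => if b.val < k then E else P)

theorem mix_eq_tk (E P : T4 m) (S : Finset (Fin m)) : mix E P S = tk E P S.card := by
  classical
  have hc : S.card ≤ m := by simpa using Finset.card_le_univ S
  have hcard : Fintype.card {b : Fin m // b.val < S.card} = Fintype.card {b : Fin m // b ∈ S} := by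
    rw [Fintype.card_coe, Fintype.card_subtype]
    have : (univ.filter fun b : Fin m => b.val < S.card) =
        (Finset.univ : Finset (Fin S.card)).map (Fin.castLEEmb hc) := by
      ext b
      simp only [Finset.mem_filter, Finset.mem_univ, true_and, Finset.mem_map, Fin.castLEEmb_apply]
      constructor
      · intro h
        exact ⟨⟨b.val, h⟩, rfl⟩
      · rintro ⟨a, rfl⟩
        exact a.2
    rw [this, Finset.card_map, Finset.card_univ, Fintype.card_fin]
  set eqv := Fintype.equivOfCardEq hcard with heqv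
  set π := eqv.extendSubtype with hπ
  unfold mix tk
  rw [← gm_perm (fun b => if b ∈ S then E else P) π]
  congr 1
  funext b
  by_cases hb : b.val < S.card
  · rw [if_pos hb, if_pos (eqv.extendSubtype_mem b hb)]
  · rw [if_neg hb, if_neg (eqv.extendSubtype_not_mem b hb)]

/-- homogeneity in the place `b` -/
theorem gm_smul (b : Fin m) (c : ℝ) {C C' : Fin m → T4 m} (h' : ∀ b', b' ≠ b → C' b' = C b')
    (hb : ∀ i j k l, C b i j k l = c * C' b i j k l) : gm C = c * gm C' := by
  simp only [gm]
  rw [Finset.mul_sum]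
  refine Finset.sum_congr rfl fun σ _ => ?_
  rw [Finset.mul_sum]
  refine Finset.sum_congr rfl fun τ _ => ?_
  rw [← Finset.mul_prod_erase univ _ (Finset.mem_univ b),
    ← Finset.mul_prod_erase univ (fun b' => C' b' (σ (b', false)) (σ (b', true)) (τ (b', false))
      (τ (b', true))) (Finset.mem_univ b), hb]
  have : ∏ b' ∈ univ.erase b, C b' (σ (b', false)) (σ (b', true)) (τ (b', false)) (τ (b', true)) =
      ∏ b' ∈ univ.erase b, C' b' (σ (b', false)) (σ (b', true)) (τ (b', false)) (τ (b', true)) :=
    Finset.prod_congr rfl fun b' hb' => by rw [h' b' (Finset.ne_of_mem_erase hb')]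
  rw [this]
  ring

theorem mix_neg (E P : T4 m) (S : Finset (Fin m)) :
    mix (fun i j k l => - E i j k l) P S = (-1) ^ S.card * mix E P S := by
  classical
  simp only [mix, gm]
  rw [Finset.mul_sum]
  refine Finset.sum_congr rfl fun σ _ => ?_
  rw [Finset.mul_sum]
  refine Finset.sum_congr rfl fun τ _ => ?_
  have h1 : ∀ b, (if b ∈ S then (fun i j k l => - E i j k l : T4 m) else P) (σ (b, false))
      (σ (b, true)) (τ (b, false)) (τ (b, true)) = (if b ∈ S then (-1 : ℝ) else 1) *
      (if b ∈ S then E else P) (σ (b, false)) (σ (b, true)) (τ (b, false)) (τ (b, true)) := by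
    intro b
    by_cases hb : b ∈ S
    · simp [hb]
    · simp [hb]
  simp only [h1, Finset.prod_mul_distrib]
  have h2 : ∏ b, (if b ∈ S then (-1 : ℝ) else 1) = (-1) ^ S.card := by
    rw [Finset.prod_ite_mem, Finset.univ_inter, Finset.prod_const]
  rw [h2]
  ring

theorem gm_sub (E P : T4 m) :
    gm (fun _ : Fin m => (fun i j k l => P i j k l - E i j k l : T4 m)) =
      ∑ k ∈ range (m + 1), (m.choose k : ℝ) * ((-1) ^ k * tk E P k) := by
  have h1 := gm_add (m := m) (fun i j k l => - E i j k l) P
  have h2 : (fun _ : Fin m => (fun i j k l => P i j k l - E i j k l : T4 m)) =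
      fun _ : Fin m => (fun i j k l => (fun i j k l => - E i j k l : T4 m) i j k l + P i j k l :
        T4 m) := by
    funext _ i j k l
    ring
  rw [h2, h1]
  have h3 := Finset.sum_powerset_apply_card (x := (univ : Finset (Fin m)))
    (fun k => ((-1 : ℝ)) ^ k * tk E P k)
  rw [Finset.card_univ, Fintype.card_fin] at h3
  simp only [nsmul_eq_mul] at h3
  rw [← h3]
  refine Finset.sum_congr rfl fun S _ => ?_
  rw [mix_neg, mix_eq_tk]

/-- the whole comparison in components -/
theorem comp_le {κ : Type} [Fintype κ] {F Q Ω : T4 m} (hF : Cur F) (hQ : Cur Q) (hΩ : Alt4 Ω)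
    (hFn : SqOn κ F) (hPn : SqOn κ (fun i j k l => F i j k l + ((m : ℝ) - 1) * Q i j k l))
    (hNn : SqOn κ (fun i j k l => Q i j k l - F i j k l + Ω i j k l)) :
    gm (fun _ : Fin m => F) ≤ gm (fun _ : Fin m => Q) := by
  classical
  set N : T4 m := fun i j k l => Q i j k l - F i j k l + Ω i j k l with hN
  set D : T4 m := fun i j k l => Q i j k l - F i j k l with hD
  set P : T4 m := fun i j k l => F i j k l + ((m : ℝ) - 1) * Q i j k l with hP
  have hPc : Cur P := {
    a12 := fun i j k l => by simp only [hP, hF.a12 i j k l, hQ.a12 i j k l]; ring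
    a34 := fun i j k l => by simp only [hP, hF.a34 i j k l, hQ.a34 i j k l]; ring
    bia := fun i j k l => by
      have h1 := hF.bia i j k l
      have h2 := hQ.bia i j k l
      simp only [hP]
      linear_combination h1 + ((m : ℝ) - 1) * h2 }
  rcases Nat.lt_or_ge m 1 with h0 | h0
  · have : m = 0 := by omega
    subst this
    apply le_of_eq
    congr 1
    funext b
    exact b.elim0
  -- one place with `D`
  have step : ∀ b₀ : Fin m, ∀ X : Fin m → T4 m, (∀ b, b ≠ b₀ → Cur (X b) ∧ SqOn κ (X b)) →
      0 ≤ gm (fun b => if b = b₀ then D else X b) := by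
    intro b₀ X hX
    have h1 : gm (fun b => if b = b₀ then N else X b) = gm (fun b => if b = b₀ then D else X b) +
        gm (fun b => if b = b₀ then Ω else X b) := by
      refine gm_lin b₀ ?_ ?_ ?_
      · intro b hb; simp only [if_neg hb]
      · intro b hb; simp only [if_neg hb]
      · intro i j k l; simp only [if_true, hN, hD]
    have h2 : gm (fun b => if b = b₀ then Ω else X b) = 0 := by
      refine Pool.Agent.W391.HD.alt m _ b₀ ?_ ?_
      · simpa using hΩ
      · intro b hb
        simp only [if_neg hb]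
        exact (hX b hb).1
    have h3 : 0 ≤ gm (fun b => if b = b₀ then N else X b) := by
      refine gm_sq (κ := κ) _ fun b => ?_
      by_cases hb : b = b₀
      · simp only [if_pos hb]; exact hNn
      · simp only [if_neg hb]; exact (hX b hb).2
    linarith
  rcases Nat.lt_or_ge m 2 with h2 | h2
  · have hm1 : m = 1 := by omega
    subst hm1
    have h1 := step 0 (fun _ => F) (fun b hb => absurd (Subsingleton.elim b 0) hb)
    have h3 : gm (fun _ : Fin 1 => Q) = gm (fun b : Fin 1 => if b = 0 then D else F) +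
        gm (fun _ : Fin 1 => F) := by
      refine gm_lin 0 ?_ ?_ ?_
      · intro b hb; exact absurd (Subsingleton.elim b 0) hb
      · intro b hb; exact absurd (Subsingleton.elim b 0) hb
      · intro i j k l; simp only [if_true, hD]; ring
    linarith
  -- the general case
  have hm' : (2 : ℝ) ≤ m := by exact_mod_cast h2
  have hmono : ∀ k < m, (m : ℝ) * tk F P (k + 1) ≤ tk F P k := by
    intro k hk
    set b₀ : Fin m := ⟨k, hk⟩ with hb₀
    set X : Fin m → T4 m := fun b => if b.val < k then F else P with hX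
    have e1 : tk F P k = gm (fun b => if b = b₀ then P else X b) := by
      unfold tk
      congr 1
      funext b
      by_cases hb : b = b₀
      · rw [if_pos hb, hb, if_neg (by simp [hb₀])]
      · rw [if_neg hb]
    have e2 : tk F P (k + 1) = gm (fun b => if b = b₀ then F else X b) := by
      unfold tk
      congr 1
      funext b
      by_cases hb : b = b₀
      · rw [if_pos hb, hb, if_pos (by simp [hb₀])]
      · rw [if_neg hb]
        have h3 : b.val ≠ k := fun h => hb (Fin.ext h)
        simp only [hX]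
        by_cases h4 : b.val < k
        · rw [if_pos h4, if_pos (by omega)]
        · rw [if_neg h4, if_neg (by omega)]
    have h3 := step b₀ X (fun b _ => by
      by_cases h4 : b.val < k
      · simp only [hX, if_pos h4]; exact ⟨hF, hFn⟩
      · simp only [hX, if_neg h4]; exact ⟨hPc, hPn⟩)
    have e3 : gm (fun b => if b = b₀ then P else X b) =
        gm (fun b => if b = b₀ then (fun i j k l => (m : ℝ) * F i j k l : T4 m) else X b) +
        gm (fun b => if b = b₀ then (fun i j k l => ((m : ℝ) - 1) * D i j k l : T4 m) else X b) := by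
      refine gm_lin b₀ ?_ ?_ ?_
      · intro b hb; simp only [if_neg hb]
      · intro b hb; simp only [if_neg hb]
      · intro i j k l; simp only [if_true, hP, hD]; ring
    have e4 : gm (fun b => if b = b₀ then (fun i j k l => (m : ℝ) * F i j k l : T4 m) else X b) =
        m * gm (fun b => if b = b₀ then F else X b) := by
      refine gm_smul b₀ (m : ℝ) ?_ ?_
      · intro b hb; simp only [if_neg hb]
      · intro i j k l; simp only [if_true]
    have e5 : gm (fun b => if b = b₀ then (fun i j k l => ((m : ℝ) - 1) * D i j k l : T4 m)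
        else X b) = ((m : ℝ) - 1) * gm (fun b => if b = b₀ then D else X b) := by
      refine gm_smul b₀ ((m : ℝ) - 1) ?_ ?_
      · intro b hb; simp only [if_neg hb]
      · intro i j k l; simp only [if_true]
    rw [e1, e2, e3, e4, e5]
    have : 0 ≤ ((m : ℝ) - 1) * gm (fun b => if b = b₀ then D else X b) :=
      mul_nonneg (by linarith) h3
    linarith
  have hsum := alt_sum h0 (tk F P) hmono
  rw [← gm_sub] at hsum
  have h5 : tk F P m = gm (fun _ : Fin m => F) := by
    unfold tk
    congr 1
    funext b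
    rw [if_pos b.2]
  have h6 : gm (fun _ : Fin m => (fun i j k l => P i j k l - F i j k l : T4 m)) =
      ((m : ℝ) - 1) ^ m * gm (fun _ : Fin m => Q) := by
    simp only [gm, hP]
    rw [Finset.mul_sum]
    refine Finset.sum_congr rfl fun σ _ => ?_
    rw [Finset.mul_sum]
    refine Finset.sum_congr rfl fun τ _ => ?_
    have : ∀ b : Fin m, F (σ (b, false)) (σ (b, true)) (τ (b, false)) (τ (b, true)) +
        ((m : ℝ) - 1) * Q (σ (b, false)) (σ (b, true)) (τ (b, false)) (τ (b, true)) -
        F (σ (b, false)) (σ (b, true)) (τ (b, false)) (τ (b, true)) =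
        ((m : ℝ) - 1) * Q (σ (b, false)) (σ (b, true)) (τ (b, false)) (τ (b, true)) := by
      intro b; ring
    simp only [this, Finset.prod_mul_distrib, Finset.prod_const, Finset.card_univ,
      Fintype.card_fin]
    ring
  rw [h5, h6] at hsum
  have h7 : 0 < ((m : ℝ) - 1) ^ m := by
    have : 0 < (m : ℝ) - 1 := by linarith
    positivity
  exact le_of_mul_le_mul_left hsum h7

end Pool.Agent.R65.HP
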