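import Pool.Agent.R65.HP.Skew
import Pool.Agent.Y195.HF.Sharp

/-!
# Final forms
-/

set_option autoImplicit false

namespace Pool.Agent.R65.HP

open Pool.Agent.W666.GB Pool.Agent.W669.HD Pool.Agent.Y195.HF Finset

/-- The comparison hypothesis for a curvature tensor `F` in dimension `2 m`: `F` is an algebraic
curvature tensor with nonnegative curvature operator, the curvature operator of `F - (m - 1) R` is
nonnegative, and `-(R + F)` becomes nonnegative on all bivectors after subtracting a `4`-form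
(`R + F` is strongly nonpositive). -/
def Compares {V : Type} [NormedAddCommGroup V] [InnerProductSpace ℝ V] (m : ℕ)
    (F R : V → V → V → V → ℝ) : Prop :=
  AlgCurv F ∧ OpNonneg F ∧ OpNonneg (fun x y z w => F x y z w - ((m : ℝ) - 1) * R x y z w) ∧
    ∃ ω : V → V → V → V → ℝ, FourForm ω ∧ OpNonneg (negT (addT (addT R F) ω))

/-- The case of constant curvature: `(m - 1)` times the curvature operator of `R` is at most `κ`,
and `R + κ R₀` is strongly nonpositive. -/
def Pinched {V : Type} [NormedAddCommGroup V] [InnerProductSpace ℝ V] (m : ℕ) (κ : ℝ)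
    (R : V → V → V → V → ℝ) : Prop :=
  OpNonneg (fun x y z w => κ * unitT x y z w - ((m : ℝ) - 1) * R x y z w) ∧
    ∃ ω : V → V → V → V → ℝ, FourForm ω ∧
      OpNonneg (negT (addT (addT R fun x y z w => κ * unitT x y z w) ω))

/-- `-R` is the sum of a form which is nonnegative on all bivectors, of `κ R₀`, and of the curvature
tensors of any number of skew forms `A s` of norm at most `a s`, where
`(m - 1) ∑ (a s)² ≤ m κ`. -/
def ManySkew {V : Type} [NormedAddCommGroup V] [InnerProductSpace ℝ V] (m : ℕ) (κ : ℝ)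
    (R : V → V → V → V → ℝ) : Prop :=
  ∃ (n : ℕ) (A : Fin n → V → V → ℝ) (a : Fin n → ℝ), (∀ s, SkewForm (A s)) ∧ (∀ s, 0 ≤ a s) ∧
    (∀ s x y, |A s x y| ≤ a s * ‖x‖ * ‖y‖) ∧ ((m : ℝ) - 1) * ∑ s, a s ^ 2 ≤ m * κ ∧
    OpNonneg (fun x y z w => -R x y z w - κ * unitT x y z w - ∑ s, skewCurv (A s) x y z w)

variable {m : ℕ} {V : Type} [NormedAddCommGroup V] [InnerProductSpace ℝ V]

theorem compares (e : OrthonormalBasis (Fin m × Bool) ℝ V) {R F : V → V → V → V → ℝ}
    (hR : AlgCurv R) (h : Compares m F R) : gbc e F ≤ (-1) ^ m * gbc e R ∧ 0 ≤ gbc e F := by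
  obtain ⟨hF, hFn, h1, ω, hω, h2⟩ := h
  exact pointwise e hR hF hω hFn h1 h2

/-- the unit tensor is nonnegative -/
theorem unit_op (e : OrthonormalBasis (Fin m × Bool) ℝ V) {κ : ℝ} (hκ : 0 ≤ κ) :
    OpNonneg (fun x y z w : V => κ * unitT x y z w) := by
  have h0 : SkewForm (fun _ _ : V => (0 : ℝ)) :=
    ⟨fun _ _ _ => by simp, fun _ _ _ => by simp, fun _ _ => by simp⟩
  have h := skew_op e h0 (Real.sqrt_nonneg κ) (fun x y => by simp; positivity)
  intro n x y
  have h1 := h n x y
  simpa [Real.sq_sqrt hκ] using h1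

theorem gbc_unit (e : OrthonormalBasis (Fin m × Bool) ℝ V) (κ : ℝ) :
    gbc e (fun x y z w : V => κ * unitT x y z w) = roundGB m κ := by
  have h0 : (fun _ : Fin m => cp e (fun x y z w : V => κ * unitT x y z w)) =
      fun _ : Fin m => (fun i j k l => κ * unitCurv i j k l : T4 m) := by
    funext _ i j k l
    simp only [cp, cp_unit]
  rw [gbc_gm, h0, unit_gm]
  have hπ := Real.pi_pos
  unfold roundGB
  have : (8 * Real.pi) ^ m = 2 ^ m * (4 * Real.pi) ^ m := by
    rw [← mul_pow]; congr 1; ring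
  rw [this]
  field_simp

theorem pinched_bound (e : OrthonormalBasis (Fin m × Bool) ℝ V) {R : V → V → V → V → ℝ}
    (hR : AlgCurv R) {κ : ℝ} (hκ : 0 ≤ κ) (h : Pinched m κ R) :
    roundGB m κ ≤ (-1) ^ m * gbc e R := by
  obtain ⟨h1, ω, hω, h2⟩ := h
  have h3 := (pointwise e hR (unit_curv κ) hω (unit_op e hκ) h1 h2).1
  rwa [gbc_unit] at h3

theorem op_sum {ι : Type} (s : Finset ι) (K : ι → V → V → V → V → ℝ)
    (h : ∀ i, OpNonneg (K i)) : OpNonneg (fun x y z w => ∑ i ∈ s, K i x y z w) := by
  classical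
  intro n x y
  have h1 : ∑ a, ∑ b, ∑ i ∈ s, K i (x a) (y a) (x b) (y b) =
      ∑ i ∈ s, ∑ a, ∑ b, K i (x a) (y a) (x b) (y b) := by
    rw [Finset.sum_comm (s := s)]
    exact Finset.sum_congr rfl fun a _ => Finset.sum_comm
  rw [h1]
  exact Finset.sum_nonneg fun i _ => h i n x y

theorem op_smul {K : V → V → V → V → ℝ} (h : OpNonneg K) {c : ℝ} (hc : 0 ≤ c) :
    OpNonneg (fun x y z w => c * K x y z w) := by
  intro n x y
  have := mul_nonneg hc (h n x y)
  simpa [Finset.mul_sum] using this

theorem op_add' {K L : V → V → V → V → ℝ} (hK : OpNonneg K) (hL : OpNonneg L) :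
    OpNonneg (fun x y z w => K x y z w + L x y z w) := by
  intro n x y
  have := add_nonneg (hK n x y) (hL n x y)
  simpa [Finset.sum_add_distrib] using this

theorem op_sq {A : V → V → ℝ} {c : ℝ} (hc : 0 ≤ c) :
    OpNonneg (fun x y z w => c * (A x y * A z w)) := by
  intro n x y
  have h1 : ∑ a, ∑ b, c * (A (x a) (y a) * A (x b) (y b)) = c * (∑ a, A (x a) (y a)) ^ 2 := by
    rw [sq, Finset.sum_mul_sum, Finset.mul_sum]
    refine Finset.sum_congr rfl fun a _ => ?_
    rw [Finset.mul_sum]
  rw [h1]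
  positivity

/-- the `4`-form `-(A ∧ A)` -/
theorem wedge_form {A : V → V → ℝ} (hA : SkewForm A) :
    FourForm (fun x y z w => -(A x y * A z w - A x z * A y w + A x w * A y z)) where
  add x x' y z w := by simp only [hA.add]; ring
  smul t x y z w := by simp only [hA.smul]; ring
  anti x y z w := by rw [hA.anti x y]; ring
  pair x y z w := by
    rw [hA.anti x z, hA.anti y w, hA.anti y z, hA.anti x w]
    ring
  alt x y z w := by rw [hA.anti y z]; ring

theorem form_sum {ι : Type} (s : Finset ι) (K : ι → V → V → V → V → ℝ)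
    (h : ∀ i, FourForm (K i)) : FourForm (fun x y z w => ∑ i ∈ s, K i x y z w) where
  add x x' y z w := by
    rw [← Finset.sum_add_distrib]
    exact Finset.sum_congr rfl fun i _ => (h i).add x x' y z w
  smul t x y z w := by
    rw [Finset.mul_sum]
    exact Finset.sum_congr rfl fun i _ => (h i).smul t x y z w
  anti x y z w := by
    rw [← Finset.sum_neg_distrib]
    exact Finset.sum_congr rfl fun i _ => (h i).anti x y z w
  pair x y z w := Finset.sum_congr rfl fun i _ => (h i).pair x y z w
  alt x y z w := by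
    rw [← Finset.sum_neg_distrib]
    exact Finset.sum_congr rfl fun i _ => (h i).alt x y z w

theorem many_pinched (e : OrthonormalBasis (Fin m × Bool) ℝ V) {R : V → V → V → V → ℝ}
    (hm : 1 ≤ m) {κ : ℝ} (h : ManySkew m κ R) : Pinched m κ R := by
  classical
  obtain ⟨n, A, a, hA, ha, hb, hs, hN⟩ := h
  have hm1 : (0 : ℝ) ≤ (m : ℝ) - 1 := by
    have : (1 : ℝ) ≤ m := by exact_mod_cast hm
    linarith
  have hsk : ∀ s, OpNonneg (fun x y z w => a s ^ 2 * unitT x y z w + skewCurv (A s) x y z w) := by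
    intro s
    have h1 := op_add' (skew_op e (hA s) (ha s) (hb s)) (op_sq (A := A s) (c := 2) (by norm_num))
    have h2 : (fun x y z w => a s ^ 2 * unitT x y z w + skewCurv (A s) x y z w) =
        fun x y z w => (a s ^ 2 * unitT x y z w + (A s x z * A s y w - A s x w * A s y z)) +
          2 * (A s x y * A s z w) := by
      funext x y z w
      simp only [skewCurv]
      ring
    rw [h2]
    exact h1
  constructor
  · have h1 : OpNonneg (fun x y z w : V => (m * κ - ((m : ℝ) - 1) * ∑ s, a s ^ 2) *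
        unitT x y z w) := unit_op e (by linarith)
    have h2 := op_add' (op_add' (op_smul hN hm1) h1) (op_smul (op_sum univ _ hsk) hm1)
    have h3 : (fun x y z w => κ * unitT x y z w - ((m : ℝ) - 1) * R x y z w) =
        fun x y z w => ((m : ℝ) - 1) * (-R x y z w - κ * unitT x y z w -
          ∑ s, skewCurv (A s) x y z w) + (m * κ - ((m : ℝ) - 1) * ∑ s, a s ^ 2) *
          unitT x y z w + ((m : ℝ) - 1) * ∑ s, (a s ^ 2 * unitT x y z w +
            skewCurv (A s) x y z w) := by
      funext x y z w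
      rw [Finset.sum_add_distrib, ← Finset.sum_mul]
      ring
    rw [h3]
    exact h2
  · refine ⟨_, form_sum univ _ fun s => wedge_form (hA s), ?_⟩
    have h1 := op_add' hN (op_sum univ _ fun s => op_sq (A := A s) (c := 3) (by norm_num))
    have h2 : negT (addT (addT R fun x y z w => κ * unitT x y z w) (fun x y z w =>
        ∑ s, -(A s x y * A s z w - A s x z * A s y w + A s x w * A s y z))) =
        fun x y z w => (-R x y z w - κ * unitT x y z w - ∑ s, skewCurv (A s) x y z w) +
          ∑ s, 3 * (A s x y * A s z w) := by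
      funext x y z w
      simp only [negT, addT, skewCurv]
      have h3 : ∑ s, (2 * (A s x y * A s z w) + A s x z * A s y w - A s x w * A s y z) +
          ∑ s, (A s x y * A s z w - A s x z * A s y w + A s x w * A s y z) =
          ∑ s, 3 * (A s x y * A s z w) := by
        rw [← Finset.sum_add_distrib]
        exact Finset.sum_congr rfl fun s _ => by ring
      rw [← h3, Finset.sum_neg_distrib]
      ring
    rw [h2]
    exact h1

theorem many_bound (e : OrthonormalBasis (Fin m × Bool) ℝ V) {R : V → V → V → V → ℝ}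
    (hR : AlgCurv R) (hm : 1 ≤ m) {κ : ℝ} (hκ : 0 ≤ κ) (h : ManySkew m κ R) :
    roundGB m κ ≤ (-1) ^ m * gbc e R :=
  pinched_bound e hR hκ (many_pinched e hm h)

/-- integrated forms -/
theorem field_compares {M : Type} [MeasurableSpace M] (μ : MeasureTheory.Measure M)
    (K : CurvField m M) (h : ∀ p, ∃ F, Compares m F (K.R p)) :
    0 ≤ (-1) ^ m * ∫ p, K.gb p ∂μ := by
  rw [← MeasureTheory.integral_const_mul]
  refine MeasureTheory.integral_nonneg fun p => ?_
  obtain ⟨F, hF⟩ := h p
  have h1 := compares (K.e p) (K.curv p) hF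
  exact h1.2.trans h1.1

theorem field_pinched {M : Type} [MeasurableSpace M] (μ : MeasureTheory.Measure M)
    [MeasureTheory.IsFiniteMeasure μ] (K : CurvField m M) (hi : MeasureTheory.Integrable K.gb μ)
    {κ : ℝ} (hκ : 0 ≤ κ) (h : ∀ p, Pinched m κ (K.R p)) :
    roundGB m κ * μ.real Set.univ ≤ (-1) ^ m * ∫ p, K.gb p ∂μ := by
  rw [← MeasureTheory.integral_const_mul]
  have h1 : roundGB m κ * μ.real Set.univ = ∫ _, roundGB m κ ∂μ := by
    rw [MeasureTheory.integral_const, smul_eq_mul, mul_comm]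
  rw [h1]
  refine MeasureTheory.integral_mono (MeasureTheory.integrable_const _) (hi.const_mul _) fun p => ?_
  exact pinched_bound (K.e p) (K.curv p) hκ (h p)

/-- In dimension six the bound of the norms of the skew forms cannot be omitted. -/
theorem bound_needed : ∃ (κ : ℝ) (A : Fin 3 → E6 → E6 → ℝ), 0 < κ ∧ (∀ s, SkewForm (A s)) ∧
    AlgCurv (fun x y z w : E6 => -(κ * unitT x y z w) - ∑ s, skewCurv (A s) x y z w) ∧
    ∀ e : OrthonormalBasis (Fin 3 × Bool) ℝ E6,
      (-1) ^ 3 * gbc e (fun x y z w => -(κ * unitT x y z w) - ∑ s, skewCurv (A s) x y z w) < 0 := by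
  obtain ⟨R, hR, ⟨A, hA, hRA⟩, hneg⟩ := three_fail
  set e₀ : OrthonormalBasis (Fin 3 × Bool) ℝ E6 := EuclideanSpace.basisFun _ ℝ with he₀
  set G : ℝ → ℝ := fun κ => (-1) ^ 3 * gbc e₀ (fun x y z w =>
    -(κ * unitT x y z w) - ∑ s, skewCurv (A s) x y z w) with hG
  have hcont : Continuous G := by
    simp only [hG, gbc]
    fun_prop
  have h0 : G 0 < 0 := by
    have h1 : (fun x y z w : E6 => -(0 * unitT x y z w) - ∑ s, skewCurv (A s) x y z w) = R := by
      funext x y z w
      rw [hRA]
      ring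
    simp only [hG, h1]
    exact hneg e₀
  obtain ⟨ε, hε, hball⟩ := Metric.isOpen_iff.mp (isOpen_Iio.preimage hcont) 0 h0
  have hk : (ε / 2) ∈ G ⁻¹' Set.Iio 0 := by
    apply hball
    rw [Metric.mem_ball, Real.dist_eq, sub_zero, abs_of_pos (by positivity)]
    linarith
  have hcurv : AlgCurv (fun x y z w : E6 => -(ε / 2 * unitT x y z w) -
      ∑ s, skewCurv (A s) x y z w) := by
    have h1 : (fun x y z w : E6 => -(ε / 2 * unitT x y z w) - ∑ s, skewCurv (A s) x y z w) =
        addT R (fun x y z w : E6 => (-(ε / 2)) * unitT x y z w) := by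
      funext x y z w
      simp only [addT, hRA]
      ring
    rw [h1]
    exact add_curv hR (unit_curv _)
  refine ⟨ε / 2, A, by positivity, hA, hcurv, fun e => ?_⟩
  rw [Pool.Agent.W688.HD.bas 3 E6 e e₀ _ hcurv]
  exact hk

end Pool.Agent.R65.HP
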