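import Pool.Agent.R65.HP.Core
import Pool.Agent.Y195.HF.Main

/-!
# The Hopf sign under an upper bound of the curvature operator and strongly nonpositive curvature
-/

set_option autoImplicit false

namespace Pool.Agent.R65.HP

open Pool.Agent.W666.GB Pool.Agent.W669.HD Pool.Agent.Y195.HF Finset

variable {m : ℕ} {V : Type} [NormedAddCommGroup V] [InnerProductSpace ℝ V]

theorem gbc_gm (e : OrthonormalBasis (Fin m × Bool) ℝ V) (F : V → V → V → V → ℝ) :
    gbc e F = 1 / ((8 * Real.pi) ^ m * m.factorial) * gm (fun _ : Fin m => cp e F) := by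
  have h1 := gbc_eq e (negT F)
  rw [gbc_neg] at h1
  rw [h1]
  congr 2
  funext _ i j k l
  simp only [cp, negT, neg_neg]

/-- The pointwise comparison. -/
theorem pointwise (e : OrthonormalBasis (Fin m × Bool) ℝ V) {R F ω : V → V → V → V → ℝ}
    (hR : AlgCurv R) (hF : AlgCurv F) (hω : FourForm ω) (hFn : OpNonneg F)
    (h1 : OpNonneg (fun x y z w => F x y z w - ((m : ℝ) - 1) * R x y z w))
    (h2 : OpNonneg (negT (addT (addT R F) ω))) :
    gbc e F ≤ (-1) ^ m * gbc e R ∧ 0 ≤ gbc e F := by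
  classical
  have hFb := Pool.Agent.W150.HD.curv_bi hF
  have hRb := Pool.Agent.W150.HD.curv_bi hR
  have hPb : BiForm (fun x y z w => F x y z w - ((m : ℝ) - 1) * R x y z w) := {
    add := fun x x' y z w => by simp only [hF.add, hR.add]; ring
    smul := fun t x y z w => by simp only [hF.smul, hR.smul]; ring
    anti := fun x y z w => by rw [hF.anti, hR.anti]; ring
    pair := fun x y z w => by rw [hF.pair, hR.pair] }
  have hNb : BiForm (negT (addT (addT R F) ω)) :=
    Pool.Agent.W150.HD.neg_bi (Pool.Agent.W150.HD.add_bi (Pool.Agent.W150.HD.add_bi hRb hFb)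
      hω.toBiForm)
  obtain ⟨n₁, ν₁, -, hν₁⟩ := hFb.squares (fun i => e i) hFn
  obtain ⟨n₂, ν₂, -, hν₂⟩ := hPb.squares (fun i => e i) h1
  obtain ⟨n₃, ν₃, -, hν₃⟩ := hNb.squares (fun i => e i) h2
  have hFc : Cur (cp e F) := {
    a12 := fun i j k l => by simp only [cp]; rw [hF.anti]
    a34 := fun i j k l => by simp only [cp]; rw [hFb.a34]
    bia := fun i j k l => by
      simp only [cp]
      have := hF.bianchi (e i) (e j) (e k) (e l)
      linarith }
  have hΩ : Alt4 (cp e (negT ω)) := {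
    a12 := fun i j k l => by simp only [cp, negT]; rw [hω.anti]
    a23 := fun i j k l => by simp only [cp, negT]; rw [hω.alt]
    a34 := fun i j k l => by simp only [cp, negT]; rw [hω.toBiForm.a34] }
  have s1 : SqOn (Fin n₁) (cp e F) := ⟨ν₁, fun i j k l => hν₁ i j k l⟩
  have s2 : SqOn (Fin n₂) (fun i j k l => cp e F i j k l + ((m : ℝ) - 1) *
      cp e (negT R) i j k l) := by
    refine ⟨ν₂, fun i j k l => ?_⟩
    rw [← hν₂ i j k l]
    simp only [cp, negT]
    ring
  have s3 : SqOn (Fin n₃) (fun i j k l => cp e (negT R) i j k l - cp e F i j k l +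
      cp e (negT ω) i j k l) := by
    refine ⟨ν₃, fun i j k l => ?_⟩
    rw [← hν₃ i j k l]
    simp only [cp, negT, addT]
    ring
  have key := comp_le (κ := Fin n₁ ⊕ Fin n₂ ⊕ Fin n₃) hFc (cur_cp e hR) hΩ s1.inl s2.inl.inr
    s3.inr.inr
  have hπ := Real.pi_pos
  have hc : 0 < 1 / ((8 * Real.pi) ^ m * (m.factorial : ℝ)) := by positivity
  rw [gbc_eq, gbc_gm]
  refine ⟨mul_le_mul_of_nonneg_left key hc.le, mul_nonneg hc.le ?_⟩
  exact gm_sq (κ := Fin n₁) _ fun _ => s1

end Pool.Agent.R65.HP
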