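import Pool.Agent.R65.HP.Fin

/-!
# The positive case
-/

set_option autoImplicit false

namespace Pool.Agent.R65.HP

open Pool.Agent.W666.GB Pool.Agent.W669.HD Pool.Agent.Y195.HF Finset

/-- The comparison hypothesis for positive curvature in dimension `2 m`: `F` is an algebraic
curvature tensor with nonnegative curvature operator, the curvature operator of `F + (m - 1) R` is
nonnegative, and `R - F` becomes nonnegative on all bivectors after adding a `4`-form
(`R - F` is strongly nonnegative). -/
def ComparesPos {V : Type} [NormedAddCommGroup V] [InnerProductSpace ℝ V] (m : ℕ)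
    (F R : V → V → V → V → ℝ) : Prop :=
  AlgCurv F ∧ OpNonneg F ∧ OpNonneg (fun x y z w => F x y z w + ((m : ℝ) - 1) * R x y z w) ∧
    ∃ ω : V → V → V → V → ℝ, FourForm ω ∧ OpNonneg (addT (addT R (negT F)) ω)

/-- The case of constant curvature: the curvature operator of `R` is at least `-κ / (m - 1)`,
and `R - κ R₀` is strongly nonnegative. -/
def PinchedPos {V : Type} [NormedAddCommGroup V] [InnerProductSpace ℝ V] (m : ℕ) (κ : ℝ)
    (R : V → V → V → V → ℝ) : Prop :=
  OpNonneg (fun x y z w => κ * unitT x y z w + ((m : ℝ) - 1) * R x y z w) ∧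
    ∃ ω : V → V → V → V → ℝ, FourForm ω ∧
      OpNonneg (addT (addT R fun x y z w => -(κ * unitT x y z w)) ω)

/-- `R` is the sum of a form which is nonnegative on all bivectors, of `κ R₀`, and of the curvature
tensors of any number of skew forms `A s` of norm at most `a s`, where
`(m - 1) ∑ (a s)² ≤ m κ`. -/
def ManySkewPos {V : Type} [NormedAddCommGroup V] [InnerProductSpace ℝ V] (m : ℕ) (κ : ℝ)
    (R : V → V → V → V → ℝ) : Prop :=
  ∃ (n : ℕ) (A : Fin n → V → V → ℝ) (a : Fin n → ℝ), (∀ s, SkewForm (A s)) ∧ (∀ s, 0 ≤ a s) ∧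
    (∀ s x y, |A s x y| ≤ a s * ‖x‖ * ‖y‖) ∧ ((m : ℝ) - 1) * ∑ s, a s ^ 2 ≤ m * κ ∧
    OpNonneg (fun x y z w => R x y z w - κ * unitT x y z w - ∑ s, skewCurv (A s) x y z w)

variable {m : ℕ} {V : Type} [NormedAddCommGroup V] [InnerProductSpace ℝ V]

theorem neg_form {ω : V → V → V → V → ℝ} (h : FourForm ω) : FourForm (negT ω) where
  add x x' y z w := by simp only [negT, h.add]; ring
  smul t x y z w := by simp only [negT, h.smul]; ring
  anti x y z w := by simp only [negT]; rw [h.anti]
  pair x y z w := by simp only [negT, h.pair]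
  alt x y z w := by simp only [negT]; rw [h.alt]

theorem compares_pos (e : OrthonormalBasis (Fin m × Bool) ℝ V) {R F : V → V → V → V → ℝ}
    (hR : AlgCurv R) (h : ComparesPos m F R) : gbc e F ≤ gbc e R ∧ 0 ≤ gbc e F := by
  obtain ⟨hF, hFn, h1, ω, hω, h2⟩ := h
  have hRn : AlgCurv (negT R) := Pool.Agent.W669.HD.neg_curv hR
  have h3 := pointwise e hRn hF (neg_form hω) hFn (by
    have : (fun x y z w => F x y z w - ((m : ℝ) - 1) * negT R x y z w) =
        fun x y z w => F x y z w + ((m : ℝ) - 1) * R x y z w := by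
      funext x y z w
      simp only [negT]
      ring
    rw [this]
    exact h1) (by
    have : negT (addT (addT (negT R) F) (negT ω)) = addT (addT R (negT F)) ω := by
      funext x y z w
      simp only [negT, addT]
      ring
    rw [this]
    exact h2)
  rwa [gbc_neg] at h3

theorem pinched_pos_compares (e : OrthonormalBasis (Fin m × Bool) ℝ V)
    {R : V → V → V → V → ℝ} {κ : ℝ} (hκ : 0 ≤ κ) (h : PinchedPos m κ R) :
    ComparesPos m (fun x y z w => κ * unitT x y z w) R := by
  obtain ⟨h1, ω, hω, h2⟩ := h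
  exact ⟨unit_curv κ, unit_op e hκ, h1, ω, hω, h2⟩

theorem pinched_pos_bound (e : OrthonormalBasis (Fin m × Bool) ℝ V) {R : V → V → V → V → ℝ}
    (hR : AlgCurv R) {κ : ℝ} (hκ : 0 ≤ κ) (h : PinchedPos m κ R) :
    roundGB m κ ≤ gbc e R := by
  have h3 := (compares_pos e hR (pinched_pos_compares e hκ h)).1
  rwa [gbc_unit] at h3

theorem many_pinched_pos (e : OrthonormalBasis (Fin m × Bool) ℝ V) {R : V → V → V → V → ℝ}
    (hm : 1 ≤ m) {κ : ℝ} (h : ManySkewPos m κ R) : PinchedPos m κ R := by
  have h1 : ManySkew m κ (negT R) := by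
    obtain ⟨n, A, a, hA, ha, hb, hs, hN⟩ := h
    refine ⟨n, A, a, hA, ha, hb, hs, ?_⟩
    simpa only [negT, neg_neg] using hN
  obtain ⟨h2, ω, hω, h3⟩ := many_pinched e hm h1
  refine ⟨?_, negT ω, neg_form hω, ?_⟩
  · have : (fun x y z w => κ * unitT x y z w + ((m : ℝ) - 1) * R x y z w) =
        fun x y z w => κ * unitT x y z w - ((m : ℝ) - 1) * negT R x y z w := by
      funext x y z w
      simp only [negT]
      ring
    rw [this]
    exact h2
  · have : (addT (addT R fun x y z w => -(κ * unitT x y z w)) (negT ω)) =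
        negT (addT (addT (negT R) fun x y z w => κ * unitT x y z w) ω) := by
      funext x y z w
      simp only [negT, addT]
      ring
    rw [this]
    exact h3

/-- if moreover `F ≥ ε R₀` with `ε > 0`, the integrand is at least the one of curvature `ε` -/
theorem compares_pos_eps (e : OrthonormalBasis (Fin m × Bool) ℝ V) {R F : V → V → V → V → ℝ}
    (hm : 1 ≤ m) (hR : AlgCurv R) (h : ComparesPos m F R) {ε : ℝ} (hε : 0 ≤ ε)
    (hF : OpNonneg (fun x y z w => F x y z w - ε * unitT x y z w)) :
    roundGB m ε ≤ gbc e R := by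
  have hm1 : (0 : ℝ) ≤ (m : ℝ) - 1 := by
    have : (1 : ℝ) ≤ m := by exact_mod_cast hm
    linarith
  refine le_trans ?_ (compares_pos e hR h).1
  refine pinched_pos_bound e h.1 hε ⟨?_, fun _ _ _ _ => 0, ?_, ?_⟩
  · exact op_add' (unit_op e hε) (op_smul h.2.1 hm1)
  · exact ⟨⟨fun _ _ _ _ _ => by simp, fun _ _ _ _ _ => by simp, fun _ _ _ _ => by simp,
      fun _ _ _ _ => by simp⟩, fun _ _ _ _ => by simp⟩
  · have : (addT (addT F fun x y z w => -(ε * unitT x y z w)) fun _ _ _ _ => 0) =
        fun x y z w => F x y z w - ε * unitT x y z w := by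
      funext x y z w
      simp only [addT]
      ring
    rw [this]
    exact hF

end Pool.Agent.R65.HP
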