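import Pool.Agent.R65.HP.Main

/-!
# Skew forms of bounded norm
-/

set_option autoImplicit false

namespace Pool.Agent.R65.HP

open Pool.Agent.W666.GB Pool.Agent.W669.HD Pool.Agent.Y195.HF Finset

section mat

variable {J : Type} [Fintype J]

theorem mat_bound (X M : J → J → ℝ) (a : ℝ)
    (hM : ∀ v : J → ℝ, ∑ i, (∑ k, M i k * v k) ^ 2 ≤ a ^ 2 * ∑ k, v k ^ 2) :
    ∑ i, ∑ j, (∑ k, M i k * ∑ l, M j l * X k l) ^ 2 ≤ a ^ 2 * (a ^ 2 * ∑ i, ∑ j, X i j ^ 2) := by
  calc ∑ i, ∑ j, (∑ k, M i k * ∑ l, M j l * X k l) ^ 2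
      = ∑ j, ∑ i, (∑ k, M i k * ∑ l, M j l * X k l) ^ 2 := Finset.sum_comm
    _ ≤ ∑ j, a ^ 2 * ∑ k, (∑ l, M j l * X k l) ^ 2 := Finset.sum_le_sum fun j _ =>
        hM (fun k => ∑ l, M j l * X k l)
    _ = a ^ 2 * ∑ k, ∑ j, (∑ l, M j l * X k l) ^ 2 := by
        rw [← Finset.mul_sum, Finset.sum_comm]
    _ ≤ a ^ 2 * ∑ k, a ^ 2 * ∑ l, X k l ^ 2 := by
        refine mul_le_mul_of_nonneg_left ?_ (sq_nonneg a)
        exact Finset.sum_le_sum fun k _ => hM (fun l => X k l)
    _ = _ := by rw [← Finset.mul_sum]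

theorem mat_pos (X M : J → J → ℝ) (a : ℝ)
    (hM : ∀ v : J → ℝ, ∑ i, (∑ k, M i k * v k) ^ 2 ≤ a ^ 2 * ∑ k, v k ^ 2) :
    0 ≤ a ^ 2 * ∑ i, ∑ j, X i j ^ 2 + ∑ i, ∑ j, X i j * (∑ k, M i k * ∑ l, M j l * X k l) := by
  have h1 := mat_bound X M a hM
  set Y : J → J → ℝ := fun i j => ∑ k, M i k * ∑ l, M j l * X k l with hY
  have h2 : 0 ≤ ∑ i, ∑ j, (a ^ 2 * X i j + Y i j) ^ 2 :=
    Finset.sum_nonneg fun i _ => Finset.sum_nonneg fun j _ => sq_nonneg _
  have h3 : ∑ i, ∑ j, (a ^ 2 * X i j + Y i j) ^ 2 =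
      a ^ 4 * ∑ i, ∑ j, X i j ^ 2 + 2 * a ^ 2 * ∑ i, ∑ j, X i j * Y i j + ∑ i, ∑ j, Y i j ^ 2 := by
    simp only [Finset.mul_sum, ← Finset.sum_add_distrib]
    refine Finset.sum_congr rfl fun i _ => Finset.sum_congr rfl fun j _ => ?_
    ring
  rcases eq_or_ne a 0 with h0 | h0
  · have h4 : ∑ i, ∑ j, Y i j ^ 2 ≤ 0 := by
      refine h1.trans (le_of_eq ?_)
      rw [h0]; ring
    have h5 : ∀ i j, Y i j = 0 := by
      intro i j
      have h6 : ∑ i, ∑ j, Y i j ^ 2 = 0 := le_antisymm h4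
        (Finset.sum_nonneg fun i _ => Finset.sum_nonneg fun j _ => sq_nonneg _)
      rw [Finset.sum_eq_zero_iff_of_nonneg fun i _ => Finset.sum_nonneg fun j _ => sq_nonneg _] at h6
      have h7 := h6 i (Finset.mem_univ i)
      rw [Finset.sum_eq_zero_iff_of_nonneg fun j _ => sq_nonneg _] at h7
      simpa using h7 j (Finset.mem_univ j)
    have h8 : ∑ i, ∑ j, X i j * Y i j = 0 :=
      Finset.sum_eq_zero fun i _ => Finset.sum_eq_zero fun j _ => by rw [h5, mul_zero]
    change 0 ≤ a ^ 2 * ∑ i, ∑ j, X i j ^ 2 + ∑ i, ∑ j, X i j * Y i j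
    rw [h8, h0]
    simp
  · have ha : 0 < a ^ 2 := by positivity
    change 0 ≤ a ^ 2 * ∑ i, ∑ j, X i j ^ 2 + ∑ i, ∑ j, X i j * Y i j
    have h4 : 0 ≤ 2 * a ^ 2 * (a ^ 2 * ∑ i, ∑ j, X i j ^ 2 + ∑ i, ∑ j, X i j * Y i j) := by
      nlinarith [h1, h2, h3]
    exact nonneg_of_mul_nonneg_right h4 (by positivity)

end mat

variable {V : Type} [NormedAddCommGroup V] [InnerProductSpace ℝ V]

theorem _root_.Pool.Agent.Y195.HF.SkewForm.sum_left {A : V → V → ℝ} (hA : SkewForm A)
    {J : Type} [Fintype J] (c : J → ℝ) (x : J → V) (y : V) :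
    A (∑ i, c i • x i) y = ∑ i, c i * A (x i) y := by
  classical
  have h0 : A 0 y = 0 := by
    have := hA.smul 0 0 y
    simpa using this
  have : ∀ s : Finset J, A (∑ i ∈ s, c i • x i) y = ∑ i ∈ s, c i * A (x i) y := by
    intro s
    induction s using Finset.induction_on with
    | empty => simpa using h0
    | insert a s ha ih => rw [Finset.sum_insert ha, Finset.sum_insert ha, hA.add, hA.smul, ih]
  exact this univ

theorem skew_expand {J : Type} [Fintype J] (e : OrthonormalBasis J ℝ V) {A : V → V → ℝ}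
    (hA : SkewForm A) (x y : V) :
    A x y = ∑ i, ∑ j, (e.repr x i * e.repr y j) * A (e i) (e j) := by
  have h1 : ∀ z, A z y = ∑ i, e.repr z i * A (e i) y := by
    intro z
    conv_lhs => rw [← e.sum_repr z]
    exact hA.sum_left _ _ _
  have h2 : ∀ z, A z y = ∑ j, e.repr y j * A z (e j) := by
    intro z
    rw [hA.anti y z]
    conv_lhs => rw [← e.sum_repr y]
    rw [hA.sum_left, ← Finset.sum_neg_distrib]
    refine Finset.sum_congr rfl fun j _ => ?_
    rw [hA.anti (e j) z]; ring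
  rw [h1]
  refine Finset.sum_congr rfl fun i _ => ?_
  rw [h2, Finset.mul_sum]
  refine Finset.sum_congr rfl fun j _ => ?_
  ring

theorem skew_mat {J : Type} [Fintype J] (e : OrthonormalBasis J ℝ V) {A : V → V → ℝ}
    (hA : SkewForm A) {a : ℝ} (ha : 0 ≤ a) (hb : ∀ x y, |A x y| ≤ a * ‖x‖ * ‖y‖) (v : J → ℝ) :
    ∑ i, (∑ k, A (e i) (e k) * v k) ^ 2 ≤ a ^ 2 * ∑ k, v k ^ 2 := by
  set w : V := ∑ k, v k • e k with hw
  set u : J → ℝ := fun i => ∑ k, A (e i) (e k) * v k with hu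
  set y : V := ∑ i, u i • e i with hy
  have h1 : ∀ i, A (e i) w = u i := by
    intro i
    rw [hA.anti w, hw, hA.sum_left, ← Finset.sum_neg_distrib]
    refine Finset.sum_congr rfl fun k _ => ?_
    rw [hA.anti (e i)]; ring
  have h2 : A y w = ∑ i, u i ^ 2 := by
    rw [hy, hA.sum_left]
    refine Finset.sum_congr rfl fun i _ => ?_
    rw [h1]; ring
  have h3 : ‖y‖ ^ 2 = ∑ i, u i ^ 2 := by
    rw [← real_inner_self_eq_norm_sq, hy, e.orthonormal.inner_sum]
    refine Finset.sum_congr rfl fun i _ => ?_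
    simp [sq]
  have h4 : ‖w‖ ^ 2 = ∑ i, v i ^ 2 := by
    rw [← real_inner_self_eq_norm_sq, hw, e.orthonormal.inner_sum]
    refine Finset.sum_congr rfl fun i _ => ?_
    simp [sq]
  have h5 := (le_abs_self _).trans (hb y w)
  rw [h2, ← h3] at h5
  change ∑ i, u i ^ 2 ≤ _
  rw [← h3, ← h4]
  have h6 : 0 ≤ ‖y‖ := norm_nonneg y
  have h7 : 0 ≤ ‖w‖ := norm_nonneg w
  rcases eq_or_lt_of_le h6 with h8 | h8
  · rw [← h8]
    have : 0 ≤ a ^ 2 * ‖w‖ ^ 2 := by positivity
    simpa using this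
  · have h9 : ‖y‖ ≤ a * ‖w‖ := by
      have : ‖y‖ * ‖y‖ ≤ ‖y‖ * (a * ‖w‖) := by nlinarith
      exact le_of_mul_le_mul_left this h8
    calc ‖y‖ ^ 2 ≤ (a * ‖w‖) ^ 2 := pow_le_pow_left₀ h6 h9 2
      _ = _ := by ring

/-- `a² R₀ + Λ²A` is nonnegative. -/
theorem skew_op {J : Type} [Fintype J] (e : OrthonormalBasis J ℝ V) {A : V → V → ℝ}
    (hA : SkewForm A) {a : ℝ} (ha : 0 ≤ a) (hb : ∀ x y, |A x y| ≤ a * ‖x‖ * ‖y‖) :
    OpNonneg (fun x y z w => a ^ 2 * unitT x y z w + (A x z * A y w - A x w * A y z)) := by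
  classical
  intro n x y
  set P : J → J → ℝ := fun i j => ∑ s, e.repr (x s) i * e.repr (y s) j with hP
  set M : J → J → ℝ := fun i j => A (e i) (e j) with hM
  have key := mat_pos (fun i j => P i j - P j i) M a (skew_mat e hA ha hb)
  -- the two parts
  have inner_exp : ∀ u v : V, inner ℝ u v = ∑ i, e.repr u i * e.repr v i := by
    intro u v
    rw [← e.sum_inner_mul_inner u v]
    refine Finset.sum_congr rfl fun i _ => ?_
    rw [e.repr_apply_apply, e.repr_apply_apply, real_inner_comm]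
  have hU : ∑ s, ∑ t, unitT (x s) (y s) (x t) (y t) =
      ∑ i, ∑ j, (P i j * P i j - P i j * P j i) := by
    have h1 : ∀ s t, unitT (x s) (y s) (x t) (y t) = ∑ i, ∑ j,
        ((e.repr (x s) i * e.repr (y s) j) * (e.repr (x t) i * e.repr (y t) j) -
        (e.repr (x s) i * e.repr (y s) j) * (e.repr (x t) j * e.repr (y t) i)) := by
      intro s t
      simp only [unitT, inner_exp, Finset.sum_mul_sum, ← Finset.sum_sub_distrib]
      refine Finset.sum_congr rfl fun i _ => Finset.sum_congr rfl fun j _ => ?_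
      ring
    simp only [h1, hP, Finset.sum_mul_sum]
    calc ∑ s, ∑ t, ∑ i, ∑ j, ((e.repr (x s) i * e.repr (y s) j) *
          (e.repr (x t) i * e.repr (y t) j) -
        (e.repr (x s) i * e.repr (y s) j) * (e.repr (x t) j * e.repr (y t) i))
        = ∑ s, ∑ i, ∑ t, ∑ j, ((e.repr (x s) i * e.repr (y s) j) *
          (e.repr (x t) i * e.repr (y t) j) -
        (e.repr (x s) i * e.repr (y s) j) * (e.repr (x t) j * e.repr (y t) i)) :=
          Finset.sum_congr rfl fun s _ => Finset.sum_comm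
      _ = ∑ i, ∑ s, ∑ t, ∑ j, ((e.repr (x s) i * e.repr (y s) j) *
          (e.repr (x t) i * e.repr (y t) j) -
        (e.repr (x s) i * e.repr (y s) j) * (e.repr (x t) j * e.repr (y t) i)) := Finset.sum_comm
      _ = _ := by
        refine Finset.sum_congr rfl fun i _ => ?_
        have h2 : ∀ s, ∑ t, ∑ j, ((e.repr (x s) i * e.repr (y s) j) *
          (e.repr (x t) i * e.repr (y t) j) -
          (e.repr (x s) i * e.repr (y s) j) * (e.repr (x t) j * e.repr (y t) i)) =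
          ∑ j, ∑ t, ((e.repr (x s) i * e.repr (y s) j) *
          (e.repr (x t) i * e.repr (y t) j) -
          (e.repr (x s) i * e.repr (y s) j) * (e.repr (x t) j * e.repr (y t) i)) :=
          fun s => Finset.sum_comm
        simp only [h2]
        rw [Finset.sum_comm]
        refine Finset.sum_congr rfl fun j _ => ?_
        simp only [Finset.sum_sub_distrib]
  have hS : ∑ s, ∑ t, (A (x s) (x t) * A (y s) (y t) - A (x s) (y t) * A (y s) (x t)) =
      ∑ i, ∑ j, ∑ k, ∑ l, (P i j * P k l * (M i k * M j l) - P i j * P k l * (M i l * M j k)) := by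
    have h1 : ∀ s t, A (x s) (x t) * A (y s) (y t) - A (x s) (y t) * A (y s) (x t) =
        ∑ i, ∑ j, ∑ k, ∑ l, ((e.repr (x s) i * e.repr (y s) j) *
          (e.repr (x t) k * e.repr (y t) l) * (M i k * M j l - M i l * M j k)) := by
      intro s t
      rw [skew_expand e hA (x s) (x t), skew_expand e hA (y s) (y t),
        skew_expand e hA (x s) (y t), skew_expand e hA (y s) (x t)]
      rw [Finset.sum_mul_sum, Finset.sum_mul_sum, ← Finset.sum_sub_distrib]
      refine Finset.sum_congr rfl fun i _ => ?_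
      rw [← Finset.sum_sub_distrib]
      refine Finset.sum_congr rfl fun j _ => ?_
      rw [Finset.sum_mul_sum, Finset.sum_mul_sum, Finset.sum_comm (f := fun i_1 j_1 =>
        e.repr (x s) i * e.repr (y t) i_1 * A (e i) (e i_1) *
          (e.repr (y s) j * e.repr (x t) j_1 * A (e j) (e j_1))), ← Finset.sum_sub_distrib]
      refine Finset.sum_congr rfl fun k _ => ?_
      rw [← Finset.sum_sub_distrib]
      refine Finset.sum_congr rfl fun l _ => ?_
      simp only [hM]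
      ring
    have h3 : ∀ i j k l, P i j * P k l * (M i k * M j l) - P i j * P k l * (M i l * M j k) =
        ∑ s, ∑ t, ((e.repr (x s) i * e.repr (y s) j) *
          (e.repr (x t) k * e.repr (y t) l) * (M i k * M j l - M i l * M j k)) := by
      intro i j k l
      simp only [hP]
      rw [Finset.sum_mul_sum, Finset.sum_mul, Finset.sum_mul, ← Finset.sum_sub_distrib]
      refine Finset.sum_congr rfl fun s _ => ?_
      rw [Finset.sum_mul, Finset.sum_mul, ← Finset.sum_sub_distrib]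
      refine Finset.sum_congr rfl fun t _ => ?_
      ring
    simp only [h1, h3]
    have sw : ∀ f : Fin n → Fin n → J → J → J → J → ℝ,
        ∑ s, ∑ t, ∑ i, ∑ j, ∑ k, ∑ l, f s t i j k l = ∑ i, ∑ j, ∑ k, ∑ l, ∑ s, ∑ t, f s t i j k l := by
      intro f
      have q1 : ∀ (g : Fin n → J → ℝ), ∑ s, ∑ i, g s i = ∑ i, ∑ s, g s i := fun g =>
        Finset.sum_comm
      calc ∑ s, ∑ t, ∑ i, ∑ j, ∑ k, ∑ l, f s t i j k l
          = ∑ p : Fin n × Fin n, ∑ i, ∑ j, ∑ k, ∑ l, f p.1 p.2 i j k l := by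
            rw [Fintype.sum_prod_type]
        _ = ∑ i, ∑ p : Fin n × Fin n, ∑ j, ∑ k, ∑ l, f p.1 p.2 i j k l := Finset.sum_comm
        _ = ∑ i, ∑ j, ∑ p : Fin n × Fin n, ∑ k, ∑ l, f p.1 p.2 i j k l :=
            Finset.sum_congr rfl fun i _ => Finset.sum_comm
        _ = ∑ i, ∑ j, ∑ k, ∑ p : Fin n × Fin n, ∑ l, f p.1 p.2 i j k l :=
            Finset.sum_congr rfl fun i _ => Finset.sum_congr rfl fun j _ => Finset.sum_comm
        _ = ∑ i, ∑ j, ∑ k, ∑ l, ∑ p : Fin n × Fin n, f p.1 p.2 i j k l :=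
            Finset.sum_congr rfl fun i _ => Finset.sum_congr rfl fun j _ =>
              Finset.sum_congr rfl fun k _ => Finset.sum_comm
        _ = _ := by
            refine Finset.sum_congr rfl fun i _ => Finset.sum_congr rfl fun j _ =>
              Finset.sum_congr rfl fun k _ => Finset.sum_congr rfl fun l _ => ?_
            rw [Fintype.sum_prod_type]
    exact sw _
  have hX : ∑ i, ∑ j, (P i j - P j i) ^ 2 = 2 * ∑ i, ∑ j, (P i j * P i j - P i j * P j i) := by
    have h1 : ∑ i, ∑ j, P j i ^ 2 = ∑ i, ∑ j, P i j ^ 2 := Finset.sum_comm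
    have h2 : ∑ i, ∑ j, (P i j - P j i) ^ 2 =
        ∑ i, ∑ j, P i j ^ 2 + ∑ i, ∑ j, P j i ^ 2 - 2 * ∑ i, ∑ j, P i j * P j i := by
      simp only [Finset.mul_sum, ← Finset.sum_add_distrib, ← Finset.sum_sub_distrib]
      refine Finset.sum_congr rfl fun i _ => Finset.sum_congr rfl fun j _ => ?_
      ring
    have h3 : ∑ i, ∑ j, (P i j * P i j - P i j * P j i) =
        ∑ i, ∑ j, P i j ^ 2 - ∑ i, ∑ j, P i j * P j i := by
      simp only [← Finset.sum_sub_distrib]
      refine Finset.sum_congr rfl fun i _ => Finset.sum_congr rfl fun j _ => ?_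
      ring
    rw [h2, h3, h1]
    ring
  have hY : ∑ i, ∑ j, (P i j - P j i) * (∑ k, M i k * ∑ l, M j l * (P k l - P l k)) =
      2 * ∑ i, ∑ j, ∑ k, ∑ l, (P i j * P k l * (M i k * M j l) -
        P i j * P k l * (M i l * M j k)) := by
    have h1 : ∑ i, ∑ j, (P i j - P j i) * (∑ k, M i k * ∑ l, M j l * (P k l - P l k)) =
        ∑ i, ∑ j, ∑ k, ∑ l, ((P i j * P k l * (M i k * M j l) - P i j * P l k * (M i k * M j l)) -
          (P j i * P k l * (M i k * M j l) - P j i * P l k * (M i k * M j l))) := by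
      refine Finset.sum_congr rfl fun i _ => Finset.sum_congr rfl fun j _ => ?_
      rw [Finset.mul_sum]
      refine Finset.sum_congr rfl fun k _ => ?_
      rw [Finset.mul_sum, Finset.mul_sum]
      refine Finset.sum_congr rfl fun l _ => ?_
      ring
    have h2 : ∑ i, ∑ j, ∑ k, ∑ l, P i j * P l k * (M i k * M j l) =
        ∑ i, ∑ j, ∑ k, ∑ l, P i j * P k l * (M i l * M j k) :=
      Finset.sum_congr rfl fun i _ => Finset.sum_congr rfl fun j _ => Finset.sum_comm
    have h3 : ∑ i, ∑ j, ∑ k, ∑ l, P j i * P k l * (M i k * M j l) =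
        ∑ i, ∑ j, ∑ k, ∑ l, P i j * P k l * (M i l * M j k) := by
      rw [Finset.sum_comm]
      refine Finset.sum_congr rfl fun i _ => Finset.sum_congr rfl fun j _ =>
        Finset.sum_congr rfl fun k _ => Finset.sum_congr rfl fun l _ => ?_
      ring
    have h4 : ∑ i, ∑ j, ∑ k, ∑ l, P j i * P l k * (M i k * M j l) =
        ∑ i, ∑ j, ∑ k, ∑ l, P i j * P k l * (M i k * M j l) := by
      rw [Finset.sum_comm]
      refine Finset.sum_congr rfl fun i _ => Finset.sum_congr rfl fun j _ => ?_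
      rw [Finset.sum_comm]
      refine Finset.sum_congr rfl fun k _ => Finset.sum_congr rfl fun l _ => ?_
      ring
    rw [h1]
    simp only [Finset.sum_sub_distrib]
    rw [h2, h3, h4]
    ring
  have hfin : ∑ s, ∑ t, (a ^ 2 * unitT (x s) (y s) (x t) (y t) +
      (A (x s) (x t) * A (y s) (y t) - A (x s) (y t) * A (y s) (x t))) =
      a ^ 2 * ∑ s, ∑ t, unitT (x s) (y s) (x t) (y t) +
      ∑ s, ∑ t, (A (x s) (x t) * A (y s) (y t) - A (x s) (y t) * A (y s) (x t)) := by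
    simp only [Finset.mul_sum, ← Finset.sum_add_distrib]
  rw [hfin, hU, hS]
  rw [hX, hY] at key
  linarith

end Pool.Agent.R65.HP
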